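import Mathlib
import Pool.Agent.H79.DPDefs
import Pool.Agent.H79.DP1
import Pool.Agent.H79.DP2

set_option autoImplicit false

namespace Pool.Agent.Results.MP_ae9641_al.NotAbelian

open Pool.Agent.H79.DP

/-- Admissible sequences `π_2, π_3, …` (the values at `0` and `1` are not used). -/
def Admissible {k : Type} [CommRing k] (π : ℕ → k) : Prop :=
  ∀ n m, 2 ≤ n → 2 ≤ m → ∀ P : Ideal k, P.IsMaximal → π n ∈ P → π m ∈ P → n ∣ m ∨ m ∣ n

section general

variable {k : Type} [CommRing k]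

open Classical in
/-- `6` on the powers of two -/
noncomputable def pw (k : Type) [CommRing k] (n : ℕ) : k := if ∃ i, n = 2 ^ i then 6 else 1

theorem adm : Admissible (pw k) := by
  intro n m _ _ P hP h1 h2
  have key : ∀ n, pw k n ∈ P → ∃ i, n = 2 ^ i := by
    intro n h
    by_contra hn
    rw [pw, if_neg hn] at h
    exact hP.ne_top ((Ideal.eq_top_iff_one _).2 h)
  obtain ⟨i, rfl⟩ := key n h1
  obtain ⟨j, rfl⟩ := key m h2
  exact (le_total i j).imp (pow_dvd_pow 2) (pow_dvd_pow 2)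

theorem c_pow (x y : ℕ) : ∃ E : ℕ, ∀ (k : Type) [CommRing k], (gdp (pw k)).c x y = 6 ^ E := by
  classical
  refine ⟨∑ d ∈ Finset.Icc 2 (x + y), if ∃ i, d = 2 ^ i then (x + y) / d - x / d - y / d else 0,
    fun k _ => ?_⟩
  rw [← Finset.prod_pow_eq_pow_sum]
  change ∏ d ∈ Finset.Icc 2 (x + y), pw k d ^ ((x + y) / d - x / d - y / d) = _
  refine Finset.prod_congr rfl fun d _ => ?_
  by_cases h : ∃ i, d = 2 ^ i
  · rw [pw, if_pos h, if_pos h]
  · rw [pw, if_neg h, if_neg h, one_pow, pow_zero]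

theorem c_dvd (t : ℕ) : (6 : k) ^ t ∣ (gdp (pw k)).c (2 ^ t - 1) 1 := by
  have h0 : 2 ^ t - 1 + 1 = 2 ^ t := Nat.sub_add_cancel Nat.one_le_two_pow
  have h1 : (Finset.Icc 1 t).image (2 ^ ·) ⊆ Finset.Icc 2 (2 ^ t - 1 + 1) := by
    intro d hd
    obtain ⟨i, hi, rfl⟩ := Finset.mem_image.1 hd
    rw [Finset.mem_Icc] at hi ⊢
    rw [h0]
    exact ⟨by simpa using Nat.pow_le_pow_right (n := 2) (by norm_num) hi.1,
      Nat.pow_le_pow_right (by norm_num) hi.2⟩
  refine dvd_trans ?_ (Finset.prod_dvd_prod_of_subset _ _ _ h1)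
  rw [Finset.prod_image fun a _ b _ h => Nat.pow_right_injective le_rfl h]
  have : (6 : k) ^ t = ∏ _i ∈ Finset.Icc 1 t, 6 := by simp
  rw [this]
  refine Finset.prod_dvd_prod_of_dvd _ _ fun i hi => ?_
  rw [Finset.mem_Icc] at hi
  rw [pw, if_pos ⟨i, rfl⟩]
  refine dvd_pow_self _ ?_
  have h2 : 2 ≤ 2 ^ i := by simpa using Nat.pow_le_pow_right (n := 2) (by norm_num) hi.1
  rw [Nat.succ_div, if_pos (by rw [h0]; exact pow_dvd_pow 2 hi.2), Nat.div_eq_of_lt (show 1 < 2 ^ i by omega)]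
  omega

theorem exists_w : ∃ w : ℤ → ℕ, (∀ i j, i ≤ j → w i ≤ w j) ∧ (∀ j, (j - 1).toNat + 1 ≤ w j) ∧
    ∀ j, (gdp (pw k)).c (j - 1).toNat 1 ∣ 6 ^ w j := by
  choose E hE using c_pow
  refine ⟨fun j => (j - 1).toNat + 1 + ∑ i ∈ Finset.range ((j - 1).toNat + 1), E i 1,
    fun i j h => ?_, fun j => Nat.le_add_right _ _, fun j => ?_⟩
  · have h1 : (i - 1).toNat + 1 ≤ (j - 1).toNat + 1 := by omega
    exact add_le_add h1 (Finset.sum_le_sum_of_subset (Finset.range_subset_range.2 h1))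
  · rw [hE]
    refine pow_dvd_pow _ (le_trans ?_ (Nat.le_add_left _ _))
    exact Finset.single_le_sum (f := fun i => E i 1) (fun _ _ => Nat.zero_le _)
      (Finset.self_mem_range_succ _)

theorem cop (a b : ℕ) : IsCoprime ((2 : k) ^ a) (3 ^ b) :=
  IsCoprime.pow ⟨-1, 1, by norm_num⟩

theorem exists_eps : ∃ ε : ℤ → k, (∀ i j, i ≤ j → (gdp (pw k)).c (i - 1).toNat 1 ∣ ε i - ε j) ∧
    (∀ j, 3 ∣ ε j - 1) ∧ ∀ t : ℕ, 2 ^ t ∣ ε (2 ^ t) := by
  obtain ⟨w, h1, h2, h3⟩ := exists_w (k := k)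
  choose a b hab using fun j => cop (k := k) (w j) (w j)
  have e3 : ∀ j, (3 : k) ^ w j ∣ a j * 2 ^ w j - 1 := fun j => ⟨- b j, by linear_combination hab j⟩
  refine ⟨fun j => a j * 2 ^ w j, fun i j h => (h3 i).trans ?_, fun j => ?_, fun t => ?_⟩
  · rw [show (6 : k) = 2 * 3 by norm_num, mul_pow]
    refine (cop _ _).mul_dvd ((Dvd.intro_left _ rfl).sub ((pow_dvd_pow 2 (h1 i j h)).mul_left _)) ?_
    have := (e3 i).sub ((pow_dvd_pow 3 (h1 i j h)).trans (e3 j))
    simpa using this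
  · exact (dvd_pow_self 3 (by have := h2 j; omega)).trans (e3 j)
  · refine (pow_dvd_pow 2 (le_trans ?_ (h2 _))).mul_left _
    have : (t : ℤ) < 2 ^ t := by exact_mod_cast Nat.lt_two_pow_self
    omega

/-- the relation `x e = 0` -/
noncomputable def ph (k : Type) [CommRing k] :
    Hom (free (gdp (pw k)) ![1]) (free (gdp (pw k)) ![0]) :=
  matHom _ ![0] ![1] ![![1]] (by
    intro a b
    fin_cases a; fin_cases b; simp)

theorem co_ph (j : ℤ) (v : (free (gdp (pw k)) ![1]).X j) :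
    co _ _ j 0 ((ph k).f j v) = (gdp (pw k)).c (j - 1).toNat 1 * co _ _ j 0 v := by
  rw [ph, co_matHom]
  simp

/-- the module `τ_{≥ 1}(D / x)` -/
noncomputable abbrev M0 (k : Type) [CommRing k] : GM (gdp (pw k)) := trunc 1 (coker (ph k))

theorem kill (j : ℤ) (x : (M0 k).X j) : (gdp (pw k)).c (j - 1).toNat 1 • x = 0 := by
  by_cases h : 1 ≤ j
  · apply tinc_inj 1 _ j
    rw [map_smul, map_zero]
    obtain ⟨v, hv⟩ := cmk_surj (ph k) j (tinc 1 _ j x)
    rw [← hv, ← map_smul, cmk_eq_zero]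
    refine ⟨mkv _ _ j (fun _ => co _ _ j 0 v) (fun a ha => by fin_cases a; simp at ha; omega),
      free_ext fun a => ?_⟩
    fin_cases a
    simp [co_ph]
  · have : x = 0 := Subtype.ext (tr_zero h x)
    rw [this, smul_zero]

/-- multiplication by `ε j` in degree `j` -/
noncomputable def fe (ε : ℤ → k)
    (h : ∀ i j, i ≤ j → (gdp (pw k)).c (i - 1).toNat 1 ∣ ε i - ε j) : Hom (M0 k) (M0 k) where
  f j := ε j • LinearMap.id
  comm n i j hij x := by
    obtain ⟨z, hz⟩ := h i j (by omega)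
    have : ε i • x = ε j • x := by
      rw [← sub_eq_zero, ← sub_smul, hz, mul_comm, mul_smul, kill, smul_zero]
    simp only [LinearMap.smul_apply, LinearMap.id_apply, this, map_smul]

theorem not_nfp [IsDomain k] [IsNoetherianRing k] (h2 : ¬ IsUnit (2 : k))
    (h3 : ¬ IsUnit (3 : k)) (ε : ℤ → k)
    (h : ∀ i j, i ≤ j → (gdp (pw k)).c (i - 1).toNat 1 ∣ ε i - ε j)
    (e3 : ∀ j, 3 ∣ ε j - 1) (e2 : ∀ t : ℕ, 2 ^ t ∣ ε (2 ^ t)) : ¬ NFP (coker (fe ε h)) := by
  rintro ⟨-, -, N, n, hN, g, hg, -⟩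
  obtain ⟨r, s, d, d', R, hR⟩ := hN.mat
  choose E hE using c_pow
  obtain ⟨B, hB⟩ := (Set.finite_range d).bddAbove
  obtain ⟨B', hB'⟩ := (Set.finite_range d').bddAbove
  have big : ∀ t : ℕ, (max n (max B B')).toNat ≤ t →
      n ≤ 2 ^ t ∧ (∀ a, d a ≤ 2 ^ t) ∧ ∀ b, d' b ≤ 2 ^ t := by
    intro t ht
    have : (t : ℤ) < 2 ^ t := by exact_mod_cast Nat.lt_two_pow_self
    refine ⟨by omega, fun a => ?_, fun b => ?_⟩
    · have := hB ⟨a, rfl⟩; omega
    · have := hB' ⟨b, rfl⟩; omega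
  refine limit_key h2 h3 R (fun t a b => E (2 ^ t - d' b).toNat (d' b - d a).toNat)
    (max n (max B B')).toNat (fun t ht v => ?_) (fun t ht => ?_)
  · obtain ⟨b1, b2, b3⟩ := big t ht
    obtain ⟨q, q1, q2⟩ := hR _ b2 b3
    obtain ⟨y, hy⟩ := (hg _ b1).2 (q v)
    obtain ⟨z, hz⟩ := e3 (2 ^ t)
    obtain ⟨y', hy'⟩ := q1 (g _ (-z • y))
    have h0 : ε (2 ^ t) • y = 0 := by
      obtain ⟨x, rfl⟩ := cmk_surj _ _ y
      rw [← map_smul, cmk_eq_zero]
      exact ⟨x, rfl⟩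
    obtain ⟨x, hx⟩ := (q2 (v - (3 : k) • y')).1 (by
      rw [map_sub, map_smul, hy', ← hy, ← map_smul, ← map_sub, smul_smul,
        show (3 : k) * -z = 1 - ε (2 ^ t) by linear_combination hz, sub_smul, h0]
      simp)
    refine ⟨x, y', fun a => ?_⟩
    have := hx a
    simp only [hE, Pi.sub_apply, Pi.smul_apply, smul_eq_mul] at this
    linear_combination this
  · obtain ⟨b1, b2, b3⟩ := big t ht
    obtain ⟨q, q1, q2⟩ := hR _ b2 b3
    have h1 : (1 : ℤ) ≤ 2 ^ t := one_le_pow₀ (by norm_num)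
    let l0 := clift (ph k) (2 ^ t) ((Ideal.span {(2 : k) ^ t}).mkQ ∘ₗ co _ _ _ 0) (fun y => by
      rw [LinearMap.comp_apply, co_ph, Submodule.mkQ_apply, Submodule.Quotient.mk_eq_zero,
        Ideal.mem_span_singleton]
      refine Dvd.dvd.mul_right ((pow_dvd_pow_of_dvd (b := 6) ⟨3, by norm_num⟩ t).trans ?_) _
      have := c_dvd (k := k) t
      rwa [show 2 ^ t - 1 = ((2 : ℤ) ^ t - 1).toNat by
        have : ((2 ^ t : ℕ) : ℤ) = 2 ^ t := by push_cast; rfl
        omega] at this)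
    let l1 := clift (fe ε h) (2 ^ t) (l0 ∘ₗ tinc 1 _ _) (fun y => by
      change (l0 ∘ₗ tinc 1 _ _) (ε (2 ^ t) • y) = 0
      rw [map_smul]
      obtain ⟨z, hz⟩ := Submodule.mkQ_surjective _ ((l0 ∘ₗ tinc 1 _ _) y)
      rw [← hz, ← map_smul, Submodule.mkQ_apply, Submodule.Quotient.mk_eq_zero,
        Ideal.mem_span_singleton]
      exact (e2 t).mul_right _)
    have l1s : Function.Surjective l1 := by
      intro y
      obtain ⟨z, rfl⟩ := Submodule.mkQ_surjective _ y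
      obtain ⟨x, hx⟩ := tinc_surj 1 (coker (ph k)) _ h1 (cmk _ _ (mkv _ _ _ (fun _ => z)
        (fun a ha => by fin_cases a; simp at ha; omega)))
      refine ⟨cmk _ _ x, ?_⟩
      change l0 (tinc 1 _ _ x) = _
      rw [hx]
      rfl
    let G := LinearEquiv.ofBijective (g _) (hg _ b1)
    refine ⟨l1 ∘ₗ G.symm.toLinearMap ∘ₗ q, l1s.comp (G.symm.surjective.comp q1), fun x => ?_⟩
    rw [LinearMap.comp_apply, LinearMap.comp_apply, (q2 _).2 ⟨x, fun a => by simp only [hE]⟩]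
    simp

end general

/-- integers coprime to `6` -/
def S6 : Submonoid ℤ where
  carrier := {n | IsCoprime n 6}
  mul_mem' := fun ha hb => IsCoprime.mul_left ha hb
  one_mem' := isCoprime_one_left

theorem S6_le : S6 ≤ nonZeroDivisors ℤ := by
  intro n hn
  refine mem_nonZeroDivisors_of_ne_zero ?_
  rintro rfl
  have : IsUnit (6 : ℤ) := isCoprime_zero_left.1 hn
  rw [Int.isUnit_iff] at this
  omega

theorem nonunit (p : ℤ) (hp : p ∣ 6) (h1 : ¬ IsUnit p) : ¬ IsUnit (p : Localization S6) := by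
  intro h
  obtain ⟨m, hm, hd⟩ := (IsLocalization.algebraMap_isUnit_iff S6 (S := Localization S6)).1
    (show IsUnit (algebraMap ℤ (Localization S6) p) by simpa using h)
  exact h1 (IsCoprime.isUnit_of_dvd' hm hd hp)

theorem six_jac : (6 : Localization S6) ∈ Ideal.jacobson (⊥ : Ideal (Localization S6)) := by
  rw [Ideal.mem_jacobson_bot]
  intro y
  obtain ⟨⟨a, s⟩, hy⟩ := IsLocalization.surj S6 y
  have h1 : IsUnit (algebraMap ℤ (Localization S6) (6 * a + s)) :=
    IsLocalization.map_units _ (⟨6 * a + s, (show IsCoprime (s : ℤ) 6 from s.2).mul_add_left_left a⟩ : S6)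
  refine isUnit_of_mul_isUnit_left (y := algebraMap ℤ (Localization S6) s) ?_
  simp only at hy
  rw [map_add, map_mul, ← hy, map_ofNat] at h1
  rwa [add_mul, one_mul, mul_assoc]

/-- A noetherian ring, an admissible sequence with infinitely many terms in the Jacobson radical,
and a map of nearly finitely presented modules whose cokernel is not nearly finitely presented. -/
theorem result : ∃ (k : Type) (_ : CommRing k) (π : ℕ → k), IsNoetherianRing k ∧ Admissible π ∧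
    {n | 2 ≤ n ∧ π n ∈ Ideal.jacobson (⊥ : Ideal k)}.Infinite ∧
    ∃ (M N Q : GM (gdp π)) (f : Hom M N) (p : Hom N Q),
      NFP M ∧ NFP N ∧ IsCoker f p ∧ ¬ NFP Q := by
  have i1 : IsNoetherianRing (Localization S6) :=
    IsLocalization.isNoetherianRing S6 _ inferInstance
  have i2 : IsDomain (Localization S6) := IsLocalization.isDomain_localization S6_le
  obtain ⟨ε, h1, h2, h3⟩ := exists_eps (k := Localization S6)
  have hM : NFP (M0 (Localization S6)) :=
    nfp_trunc 1 (fp_coker _) fun j => fin_coker _ j (fin_free _ j)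
  refine ⟨Localization S6, inferInstance, pw _, i1, adm, ?_, _, _, _, fe ε h1, cpr _, hM, hM,
    isCoker_cpr _, not_nfp ?_ ?_ ε h1 h2 h3⟩
  · refine Set.infinite_of_injective_forall_mem (f := fun i : ℕ => 2 ^ (i + 1))
      (fun a b h => by simpa using h) fun i => ⟨?_, ?_⟩
    · simpa using Nat.pow_le_pow_right (n := 2) (by norm_num) (Nat.le_add_left 1 i)
    · rw [pw, if_pos ⟨i + 1, rfl⟩]
      exact six_jac
  · simpa using nonunit 2 (by norm_num) (by rw [Int.isUnit_iff]; omega)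
  · simpa using nonunit 3 (by norm_num) (by rw [Int.isUnit_iff]; omega)

end Pool.Agent.Results.MP_ae9641_al.NotAbelian
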